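import Pool.Agent.Y630.TG.RcFault

/-! Hidden instances in general position with fixed further bits (helper329). -/

set_option autoImplicit false
set_option linter.unusedSectionVars false
set_option linter.unusedVariables false

namespace Pool.Agent.Q329.UL

open Finset Pool.Agent.Y630.NW Pool.Agent.Y630.TF Pool.Agent.Y630.TR Pool.Agent.Y630.TG
  Pool.Agent.W969.MC H630VC

open Classical in
/-- hidden circuits decide the small problem -/
theorem rc_fault {I E X G : Type} [Fintype E] [DecidableEq E] [Fintype X] [DecidableEq X]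
    [Nonempty X] [Fintype G] [DecidableEq G] [AddCommGroup G]
    (inp : Set (I → ℝ))
    (enc : I → X → Bool)
    (hbit : ∀ x, (fun i => Pool.Agent.H560R2.bit (enc i) x) ∈ inp)
    (hconst : ∀ c : ℝ, (fun _ => c) ∈ inp) (No Yes : I → Prop) {D : ℕ} (hD : 0 < D)
    (slot : X × G ↪ E) (base : E → Bool)
    {R : Type} [Fintype R] [Nonempty R] (C : R → RC (E × Bool))
    (hT : ∀ ρ, (C ρ).T = ∅)
    (hbad : (Fintype.card X : ℝ) * (1 - 1 / (D : ℝ)) ^ Fintype.card G ≤ 1 / 40)
    (h1 : ∀ i, No i → ∀ τ : X → G,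
      (4 / 5 : ℝ) * (Fintype.card R * (D : ℝ) ^ Fintype.card E) ≤
      ({s : R × (E → Fin D) | (C s.1).acc (lit (host slot
        base τ (enc i)) (Flt s.2))}.ncard : ℝ))
    (h2 : ∀ i, Yes i → ∀ τ : X → G,
      ({ρ : R | (C ρ).acc (lit (host slot base τ (enc i))
        ∅)}.ncard : ℝ) ≤ 1 / 4 * Fintype.card R) :
    ∃ l : R × (X → G) → List (I → ℝ), (∀ ω, FProg inp (l ω) []) ∧
      (∀ ω, (l ω).length ≤ 3 * (C ω.1).S + 2) ∧ ∃ f : R × (X → G) → I → ℝ,
        (∀ ω, f ω ∈ l ω) ∧ ∀ i,
        (No i → 3 * Fintype.card (R × (X → G)) ≤ 4 * (univ.filter fun ω => 1 ≤ f ω i).card) ∧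
        (Yes i → 3 * Fintype.card (R × (X → G)) ≤ 4 * (univ.filter fun ω => f ω i < 1).card) := by
  have hx0 : Nonempty X := inferInstance
  obtain ⟨x0⟩ := hx0
  have hex : ∀ ω : R × (X → G), ∃ (l : List (I → ℝ)) (f : I → ℝ), FProg inp l [] ∧
      l.length ≤ 3 * (C ω.1).S + 2 ∧ f ∈ l ∧ ∀ i, 1 ≤ f i ↔
        (C ω.1).acc (rlit slot base ω.2 (enc i)) := by
    intro ω
    obtain ⟨σ, c, hσ⟩ := rlit_lsb slot base ω.2
    obtain ⟨C', hsize, -, hT', hacc⟩ := subst (C ω.1) x0 σ c
    have hT2 : C'.T = ∅ := hT'.mpr (hT ω.1)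
    obtain ⟨L, hL, hlen, f, hf, hval⟩ := rc_prog inp enc hbit hconst C' hT2
    refine ⟨L, f, hL, ?_, hf, fun i => ?_⟩
    · have h3 : C'.S = (C ω.1).S := by
        have h4 : C'.size = C'.S := by
          unfold RC.size
          rw [hT2, Finset.sum_empty, Nat.add_zero]
        have h5 : (C ω.1).size = (C ω.1).S := by
          unfold RC.size
          rw [hT ω.1, Finset.sum_empty, Nat.add_zero]
        rw [← h4, ← h5, hsize]
      rw [← h3]
      exact hlen
    · rw [hval i, hacc, hσ]
      rfl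
  choose l f hprog hlen hmem hval using hex
  refine ⟨l, hprog, hlen, f, hmem, fun i => ⟨fun hi => ?_, fun hi => ?_⟩⟩
  · have h3 := transfer_yes slot base hD
      (fun ρ y => (C ρ).acc y) (fun ρ u v huv hu => acc_mono _ (hT ρ) huv hu) (3 / 4) (1 / 20)
      (hbad.trans (by norm_num)) (enc i) (fun τ => by
        have h4 := h1 i hi τ
        norm_num at h4 ⊢
        exact h4)
    have h4 : (3 / 4 : ℝ) * Fintype.card (R × (X → G)) ≤
        ((univ.filter fun ω => 1 ≤ f ω i).card : ℝ) := by
      refine le_trans ?_ (h3.trans (le_of_eq ?_))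
      · refine mul_le_mul_of_nonneg_right (by norm_num) (Nat.cast_nonneg _)
      · rw [Set.ncard_eq_toFinset_card']
        congr 2
        ext ω
        simp [hval]
    have h5 : (3 : ℝ) * Fintype.card (R × (X → G)) ≤
        4 * ((univ.filter fun ω => 1 ≤ f ω i).card : ℝ) := by linarith
    exact_mod_cast h5
  · have h3 := transfer_no slot base
      (fun ρ y => (C ρ).acc y) (fun ρ u v huv hu => acc_mono _ (hT ρ) huv hu) (1 / 4) (enc i)
      (fun τ => h2 i hi τ)
    have h4 : ((univ.filter fun ω => 1 ≤ f ω i).card : ℝ) ≤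
        1 / 4 * Fintype.card (R × (X → G)) := by
      refine le_trans (le_of_eq ?_) h3
      rw [Set.ncard_eq_toFinset_card']
      congr 2
      ext ω
      simp [hval]
    have h5 := Finset.card_filter_add_card_filter_not (s := (univ : Finset (R × (X → G))))
      (p := fun ω => 1 ≤ f ω i)
    rw [Finset.card_univ] at h5
    have h6 : (univ.filter fun ω : R × (X → G) => ¬ 1 ≤ f ω i) =
        univ.filter fun ω => f ω i < 1 := by
      ext ω
      simp
    rw [h6] at h5
    have h7 : ((univ.filter fun ω => 1 ≤ f ω i).card : ℝ) +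
        ((univ.filter fun ω => f ω i < 1).card : ℝ) = Fintype.card (R × (X → G)) := by
      exact_mod_cast h5
    have h8 : (3 : ℝ) * Fintype.card (R × (X → G)) ≤
        4 * ((univ.filter fun ω => f ω i < 1).card : ℝ) := by linarith
    exact_mod_cast h8

end Pool.Agent.Q329.UL
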