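import Mathlib

/-! Fractional perfect matchings with parallel edges as a linear system (helper329). -/

set_option autoImplicit false
set_option linter.unusedSectionVars false
set_option linter.unusedVariables false

namespace Pool.Agent.Q329.UL

open Finset

/-- the edges: `K` parallel edges for each pair -/
abbrev Ed (n K : ℕ) : Type := (Fin n × Fin n) × Fin K

/-- the rows: two for each edge and two for each vertex -/
abbrev Rw (n K : ℕ) : Type := (Ed n K × Bool) ⊕ ((Fin n ⊕ Fin n) × Bool)

variable {n K : ℕ}

/-- the vertex `v` is an end of the edge -/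
def inc (v : Fin n ⊕ Fin n) (e : Ed n K) : Prop :=
  v = Sum.inl e.1.1 ∨ v = Sum.inr e.1.2

instance (v : Fin n ⊕ Fin n) (e : Ed n K) : Decidable (inc v e) := by unfold inc; infer_instance

/-- the matrix -/
def mat (n K : ℕ) : Matrix (Rw n K) (Ed n K) ℝ :=
  Matrix.of fun i e => Sum.elim
    (fun p : Ed n K × Bool => if p.1 = e then (if p.2 = true then -1 else 1) else 0)
    (fun p : (Fin n ⊕ Fin n) × Bool => if inc p.1 e then (if p.2 = true then -1 else 1) else 0) i

/-- the upper values of the right-hand side -/
def top (n K : ℕ) : Rw n K → ℝ :=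
  Sum.elim (fun _ => 0) (fun p => if p.2 = true then 0 else 1)

/-- the fixed lowered entries -/
def base (n K : ℕ) : Rw n K → Bool := Sum.elim (fun _ => false) (fun p => p.2)

/-- the rows of the present edges -/
def slot (n K : ℕ) : Ed n K ↪ Rw n K where
  toFun := fun e => Sum.inl (e, true)
  inj' := by
    intro e e' h
    have := Sum.inl.inj h
    exact (Prod.mk.inj this).1

/-- the system is solvable -/
def Solv {ι κ : Type} [Fintype κ] (A : Matrix ι κ ℝ) (β : ι → ℝ) (z : ι → Bool) : Prop :=
  ∃ x : κ → ℝ, ∀ i, β i - (if z i = true then 1 else 0) ≤ Matrix.mulVec A x i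

lemma mul_edge (x : Ed n K → ℝ) (e : Ed n K) (b : Bool) :
    Matrix.mulVec (mat n K) x (Sum.inl (e, b)) = (if b = true then -1 else 1) * x e := by
  unfold Matrix.mulVec dotProduct mat
  simp only [Matrix.of_apply, Sum.elim_inl, ite_mul, zero_mul]
  rw [Finset.sum_ite_eq]
  simp

lemma mul_vertex (x : Ed n K → ℝ) (v : Fin n ⊕ Fin n) (b : Bool) :
    Matrix.mulVec (mat n K) x (Sum.inr (v, b)) =
      (if b = true then -1 else 1) * ∑ e ∈ univ.filter (fun e => inc v e), x e := by
  unfold Matrix.mulVec dotProduct mat
  rw [Finset.mul_sum, Finset.sum_filter]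
  refine Finset.sum_congr rfl fun e _ => ?_
  simp only [Matrix.of_apply, Sum.elim_inr]
  split_ifs <;> simp

/-- the bits of an instance -/
def IsInst (z : Rw n K → Bool) (g : Ed n K → Prop) : Prop :=
  (∀ e, z (Sum.inl (e, true)) = true ↔ g e) ∧ (∀ e, z (Sum.inl (e, false)) = false) ∧
    ∀ v b, z (Sum.inr (v, b)) = b

/-- a perfect matching gives a solution -/
lemma solv_perm (z : Rw n K → Bool) (σ : Equiv.Perm (Fin n)) (τ : Fin n × Fin n → Fin K)
    (hz : IsInst z (fun e => τ e.1 = e.2 ∧ σ e.1.1 = e.1.2)) :
    Solv (mat n K) (top n K) z := by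
  classical
  obtain ⟨h1, h2, h3⟩ := hz
  set x : Ed n K → ℝ := fun e => if τ e.1 = e.2 ∧ σ e.1.1 = e.1.2 then 1 else 0 with hx
  have hsum : ∀ v : Fin n ⊕ Fin n, ∑ e ∈ univ.filter (fun e => inc v e), x e = 1 := by
    intro v
    rw [Finset.sum_filter]
    rcases v with i | j
    · rw [Finset.sum_eq_single ((i, σ i), τ (i, σ i))]
      · have : inc (Sum.inl i) (((i, σ i), τ (i, σ i)) : Ed n K) := Or.inl rfl
        rw [if_pos this, hx]
        simp
      · rintro ⟨⟨a, b⟩, t⟩ _ hne
        split_ifs with h4
        · rw [hx]
          simp only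
          rw [if_neg]
          rintro ⟨h5, h6⟩
          apply hne
          have h7 : i = a := by
            rcases h4 with h4 | h4
            · exact Sum.inl.inj h4
            · exact absurd h4 (by simp)
          subst h7
          rw [← h5, ← h6]
        · rfl
      · intro h; exact absurd (Finset.mem_univ _) h
    · rw [Finset.sum_eq_single ((σ.symm j, j), τ (σ.symm j, j))]
      · have : inc (Sum.inr j) (((σ.symm j, j), τ (σ.symm j, j)) : Ed n K) := Or.inr rfl
        rw [if_pos this, hx]
        simp
      · rintro ⟨⟨a, b⟩, t⟩ _ hne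
        split_ifs with h4
        · rw [hx]
          simp only
          rw [if_neg]
          rintro ⟨h5, h6⟩
          apply hne
          have h7 : j = b := by
            rcases h4 with h4 | h4
            · exact absurd h4 (by simp)
            · exact Sum.inr.inj h4
          subst h7
          have h8 : a = σ.symm j := by rw [← h6, Equiv.symm_apply_apply]
          subst h8
          rw [← h5]
        · rfl
      · intro h; exact absurd (Finset.mem_univ _) h
  refine ⟨x, ?_⟩
  rintro (⟨e, b⟩ | ⟨v, b⟩)
  · rw [mul_edge]
    rcases b with _ | _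
    · rw [h2 e]
      simp only [top, Sum.elim_inl, Bool.false_eq_true, if_false, sub_zero, one_mul]
      rw [hx]
      simp only
      split_ifs <;> norm_num
    · simp only [top, Sum.elim_inl, if_true]
      have h4 := h1 e
      rw [hx]
      simp only
      by_cases h5 : τ e.1 = e.2 ∧ σ e.1.1 = e.1.2
      · rw [if_pos h5, if_pos (h4.mpr h5)]
        norm_num
      · rw [if_neg h5, if_neg (fun h6 => h5 (h4.mp h6))]
        norm_num
  · rw [mul_vertex, hsum, h3]
    rcases b with _ | _
    · simp [top]
    · simp [top]

/-- a small vertex cover excludes solutions -/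
lemma not_solv_cover (z : Rw n K → Bool) (W : Finset (Fin n ⊕ Fin n)) (hW : W.card < n)
    (g : Ed n K → Prop) (hg : ∀ e, g e → Sum.inl e.1.1 ∈ W ∨ Sum.inr e.1.2 ∈ W)
    (hz : IsInst z g) : ¬ Solv (mat n K) (top n K) z := by
  classical
  rintro ⟨x, hx⟩
  obtain ⟨h1, h2, h3⟩ := hz
  have hpos : ∀ e, 0 ≤ x e := by
    intro e
    have h := hx (Sum.inl (e, false))
    rw [mul_edge, h2 e] at h
    simpa [top] using h
  have hzero : ∀ e, ¬ g e → x e ≤ 0 := by
    intro e he
    have h := hx (Sum.inl (e, true))
    rw [mul_edge, if_neg (fun h6 => he ((h1 e).mp h6))] at h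
    simpa [top] using h
  have hge : ∀ v, 1 ≤ ∑ e ∈ univ.filter (fun e => inc v e), x e := by
    intro v
    have h := hx (Sum.inr (v, false))
    rw [mul_vertex, h3] at h
    simpa [top] using h
  have hle : ∀ v, ∑ e ∈ univ.filter (fun e => inc v e), x e ≤ 1 := by
    intro v
    have h := hx (Sum.inr (v, true))
    rw [mul_vertex, h3] at h
    simp only [top, Sum.elim_inr, if_true] at h
    linarith
  -- the total weight
  have htot : (n : ℝ) ≤ ∑ e, x e := by
    have h4 : ∑ i : Fin n, ∑ e ∈ univ.filter (fun e : Ed n K => inc (Sum.inl i) e), x e =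
        ∑ e, x e := by
      simp only [Finset.sum_filter]
      rw [Finset.sum_comm]
      refine Finset.sum_congr rfl fun e _ => ?_
      rw [Finset.sum_eq_single e.1.1]
      · have hi : inc (Sum.inl e.1.1) e := Or.inl rfl
        rw [if_pos hi]
      · intro i _ hi
        rw [if_neg]
        rintro (h | h)
        · exact hi (Sum.inl.inj h)
        · exact absurd h (by simp)
      · intro h; exact absurd (Finset.mem_univ _) h
    rw [← h4]
    calc (n : ℝ) = ∑ _i : Fin n, (1 : ℝ) := by simp
      _ ≤ _ := Finset.sum_le_sum fun i _ => hge _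
  have hcov : ∑ e, x e ≤ W.card := by
    calc ∑ e, x e ≤ ∑ e, ∑ v ∈ W, (if inc v e then x e else 0) := by
          refine Finset.sum_le_sum fun e _ => ?_
          by_cases he : g e
          · obtain ⟨v, hv, hve⟩ : ∃ v ∈ W, inc v e := by
              rcases hg e he with h | h
              · exact ⟨_, h, Or.inl rfl⟩
              · exact ⟨_, h, Or.inr rfl⟩
            have h5 := Finset.single_le_sum (f := fun v => if inc v e then x e else 0)
              (fun v _ => by
                show (0 : ℝ) ≤ if inc v e then x e else 0
                split_ifs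
                · exact hpos e
                · exact le_rfl) hv
            simp only [if_pos hve] at h5
            exact h5
          · refine (hzero e he).trans ?_
            refine Finset.sum_nonneg fun v _ => ?_
            split_ifs
            · exact hpos e
            · exact le_rfl
      _ = ∑ v ∈ W, ∑ e ∈ univ.filter (fun e => inc v e), x e := by
          rw [Finset.sum_comm]
          refine Finset.sum_congr rfl fun v _ => ?_
          rw [Finset.sum_filter]
      _ ≤ ∑ _v ∈ W, (1 : ℝ) := Finset.sum_le_sum fun v _ => hle v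
      _ = W.card := by simp
  have h5 : (n : ℝ) ≤ W.card := htot.trans hcov
  have h6 : n ≤ W.card := by exact_mod_cast h5
  omega

end Pool.Agent.Q329.UL
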