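import Pool.Agent.Q329.UL.Core
import Pool.Agent.Q329.UL.Lin
import Pool.Agent.H560R2.Mat7

/-! Linear systems whose right-hand sides are hidden in random faults (helper329). -/

set_option autoImplicit false
set_option linter.unusedSectionVars false
set_option linter.unusedVariables false

namespace Pool.Agent.Q329.UL

open Finset Pool.Agent.Y630.NW Pool.Agent.Y630.TF Pool.Agent.Y630.TR Pool.Agent.Y630.TG
  Pool.Agent.W969.MC H630VC
open Pool.Agent.H560R2 (RProg LeafOnR match_avg)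

lemma rprog_of_fprog {I : Type} {inp : Set (I → ℝ)} {l : List (I → ℝ)}
    {q : List (List ((I → ℝ) × ℝ))} (h : FProg inp l q) (hq : q = []) : RProg inp l := by
  induction h with
  | nil => exact RProg.nil
  | @input l q f _ hf ih =>
    exact RProg.gate 1 (by norm_num) (fun v => v 0) (fun a b hab => hab 0) (fun _ => f) (ih hq)
      (fun _ => Or.inl hf)
  | @gate l q φ f g _ hφ hf hg ih =>
    exact RProg.gate (B := inp) (L := l) 2 le_rfl (fun v => φ (v 0) (v 1))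
      (fun a b hab => hφ _ _ _ _ (hab 0) (hab 1)) ![f, g] (ih hq)
      (fun j => by
        right
        fin_cases j
        · exact hf
        · exact hg)
  | free _ _ _ => exact absurd hq (by simp)

/-- the parameters -/
theorem params : ∀ᶠ n : ℕ in Filter.atTop, ∃ w lam : ℕ, 1 ≤ w ∧ n < 2 ^ lam ∧
    2 ^ 59 * (lam + 1) ^ 8 * w ^ 8 * 2 ≤ n ∧ (n : ℝ) ^ (1 / 9 : ℝ) + 4 ≤ w ∧
    4 ≤ Real.log n ∧ 1 ≤ n := by
  have h1 : ∀ᶠ x : ℝ in Filter.atTop, ‖Real.log x‖ ≤ 1 / 2 ^ 11 * ‖x ^ (1 / 72 : ℝ)‖ :=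
    (isLittleO_log_rpow_atTop (by norm_num : (0 : ℝ) < 1 / 72)).bound (by norm_num)
  have h2 := tendsto_natCast_atTop_atTop.eventually h1
  have h3 : ∀ᶠ n : ℕ in Filter.atTop, (4 : ℝ) ≤ Real.log n :=
    (Real.tendsto_log_atTop.comp tendsto_natCast_atTop_atTop).eventually_ge_atTop 4
  have h4 : ∀ᶠ n : ℕ in Filter.atTop, (5 : ℝ) ≤ (n : ℝ) ^ (1 / 9 : ℝ) :=
    ((tendsto_rpow_atTop (by norm_num : (0 : ℝ) < 1 / 9)).comp
      tendsto_natCast_atTop_atTop).eventually_ge_atTop 5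
  filter_upwards [h2, h3, h4, Filter.eventually_ge_atTop 1] with n h5 h6 h7 h8
  have hn : (1 : ℝ) ≤ n := by exact_mod_cast h8
  have hn0 : (0 : ℝ) < n := by linarith
  have h9 : Real.log n ≤ 1 / 2 ^ 11 * (n : ℝ) ^ (1 / 72 : ℝ) := by
    have a1 : ‖(n : ℝ) ^ (1 / 72 : ℝ)‖ = (n : ℝ) ^ (1 / 72 : ℝ) :=
      Real.norm_of_nonneg (by positivity)
    rw [a1] at h5
    exact (le_abs_self _).trans h5
  refine ⟨⌈(n : ℝ) ^ (1 / 9 : ℝ)⌉₊ + 4, Nat.log 2 n + 1, by omega,
    Nat.lt_pow_succ_log_self (by norm_num) n, ?_, ?_, h6, h8⟩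
  · have h10 : ((Nat.log 2 n + 1 + 1 : ℕ) : ℝ) ≤ 4 * Real.log n := by
      have a1 : (Nat.log 2 n : ℝ) ≤ Real.logb 2 n := by
        rw [Real.le_logb_iff_rpow_le (by norm_num) hn0]
        rw [Real.rpow_natCast]
        exact_mod_cast Nat.pow_log_le_self 2 (by omega)
      have a2 : Real.logb 2 n ≤ 2 * Real.log n := by
        unfold Real.logb
        have a3 := Real.log_two_gt_d9
        rw [div_le_iff₀ (by linarith)]
        nlinarith
      push_cast
      linarith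
    have h11 : ((⌈(n : ℝ) ^ (1 / 9 : ℝ)⌉₊ + 4 : ℕ) : ℝ) ≤ 2 * (n : ℝ) ^ (1 / 9 : ℝ) := by
      have a1 := Nat.ceil_lt_add_one (show (0 : ℝ) ≤ (n : ℝ) ^ (1 / 9 : ℝ) by positivity)
      push_cast
      linarith
    have h12 : ((2 ^ 59 * (Nat.log 2 n + 1 + 1) ^ 8 * (⌈(n : ℝ) ^ (1 / 9 : ℝ)⌉₊ + 4) ^ 8 * 2 : ℕ) :
        ℝ) ≤ n := by
      have e1 : ((2 ^ 59 * (Nat.log 2 n + 1 + 1) ^ 8 * (⌈(n : ℝ) ^ (1 / 9 : ℝ)⌉₊ + 4) ^ 8 * 2 : ℕ) :
          ℝ) = 2 ^ 60 * ((Nat.log 2 n + 1 + 1 : ℕ) : ℝ) ^ 8 *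
          ((⌈(n : ℝ) ^ (1 / 9 : ℝ)⌉₊ + 4 : ℕ) : ℝ) ^ 8 := by
        push_cast
        ring
      rw [e1]
      have hlog0 : 0 ≤ Real.log n := by linarith
      calc (2 : ℝ) ^ 60 * ((Nat.log 2 n + 1 + 1 : ℕ) : ℝ) ^ 8 *
          ((⌈(n : ℝ) ^ (1 / 9 : ℝ)⌉₊ + 4 : ℕ) : ℝ) ^ 8
          ≤ 2 ^ 60 * (4 * (1 / 2 ^ 11 * (n : ℝ) ^ (1 / 72 : ℝ))) ^ 8 *
            (2 * (n : ℝ) ^ (1 / 9 : ℝ)) ^ 8 := by
            have b1 : ((Nat.log 2 n + 1 + 1 : ℕ) : ℝ) ≤ 4 * (1 / 2 ^ 11 * (n : ℝ) ^ (1 / 72 : ℝ)) := by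
              linarith
            gcongr
        _ = 2 ^ 84 / 2 ^ 88 * (((n : ℝ) ^ (1 / 72 : ℝ)) ^ 8 * ((n : ℝ) ^ (1 / 9 : ℝ)) ^ 8) := by
            ring
        _ = 2 ^ 84 / 2 ^ 88 * n := by
            rw [← Real.rpow_natCast ((n : ℝ) ^ (1 / 72 : ℝ)), ← Real.rpow_natCast ((n : ℝ) ^ (1 / 9 : ℝ)),
              ← Real.rpow_mul hn0.le, ← Real.rpow_mul hn0.le, ← Real.rpow_add hn0]
            norm_num
        _ ≤ n := by nlinarith
    exact_mod_cast h12
  · push_cast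
    have := Nat.le_ceil ((n : ℝ) ^ (1 / 9 : ℝ))
    linarith

open Classical in
/-- the bits of a bipartite graph -/
noncomputable def enc {n : ℕ} (S : Set (Fin n × Fin n)) : Fin n × Fin n → Bool :=
  fun e => decide (e ∈ S)

lemma host_inst {n K : ℕ} [NeZero K] (S : Set (Fin n × Fin n)) (τ : Fin n × Fin n → Fin K) :
    IsInst (host (slot n K) (base n K) τ (enc S)) (fun e => τ e.1 = e.2 ∧ e.1 ∈ S) := by
  classical
  refine ⟨fun e => ?_, fun e => ?_, fun v b => ?_⟩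
  · rw [host_true]
    constructor
    · rintro (h | ⟨x, hx, h⟩)
      · exact absurd h (by simp [base])
      · have h1 : (x, τ x) = e := (Prod.mk.inj (Sum.inl.inj h)).1
        rw [← h1]
        exact ⟨rfl, by simpa [enc] using hx⟩
    · rintro ⟨h1, h2⟩
      refine Or.inr ⟨e.1, by simpa [enc] using h2, ?_⟩
      show Sum.inl ((e.1, τ e.1), true) = Sum.inl (e, true)
      rw [h1]
  · rw [← Bool.not_eq_true, host_true]
    rintro (h | ⟨x, hx, h⟩)
    · exact absurd h (by simp [base])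
    · have h1 : true = false := (Prod.mk.inj (Sum.inl.inj h)).2
      exact absurd h1 (by simp)
  · rw [Bool.eq_iff_iff, host_true]
    constructor
    · rintro (h | ⟨x, hx, h⟩)
      · exact h
      · exact absurd h (fun h' => Sum.inl_ne_inr h')
    · intro h
      exact Or.inl h

open Classical in
/-- averaging over the circuits -/
theorem average {n : ℕ} {Om Pt : Type} [Fintype Om] [Nonempty Om] [Fintype Pt] [Nonempty Pt]
    (no : Equiv.Perm (Fin n) → Set (Fin n × Fin n)) (yes : Pt → Set (Fin n × Fin n))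
    (f : Om → Set (Fin n × Fin n) → ℝ)
    (hmain : ∀ ω : Om,
      (univ.filter (fun σ : Equiv.Perm (Fin n) => 1 ≤ f ω (no σ))).card * Fintype.card Pt * 4 ≤
      (univ.filter (fun p : Pt => 1 ≤ f ω (yes p))).card * Fintype.card (Equiv.Perm (Fin n)) * 4 +
        Fintype.card Pt * Fintype.card (Equiv.Perm (Fin n)))
    (hno : ∀ σ, 3 * Fintype.card Om ≤ 4 * (univ.filter fun ω => 1 ≤ f ω (no σ)).card)
    (hyes : ∀ p, 3 * Fintype.card Om ≤ 4 * (univ.filter fun ω => f ω (yes p) < 1).card) :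
    False := by
  have hsum := Finset.sum_le_sum fun ω (_ : ω ∈ (univ : Finset Om)) => hmain ω
  rw [Finset.sum_add_distrib, ← Finset.sum_mul, ← Finset.sum_mul, ← Finset.sum_mul,
    ← Finset.sum_mul, Finset.sum_const, Finset.card_univ, smul_eq_mul] at hsum
  have hsw1 : ∑ ω : Om, (univ.filter (fun σ : Equiv.Perm (Fin n) => 1 ≤ f ω (no σ))).card =
      ∑ σ : Equiv.Perm (Fin n), (univ.filter (fun ω : Om => 1 ≤ f ω (no σ))).card := by
    simp only [Finset.card_filter]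
    exact Finset.sum_comm
  have hsw2 : ∑ ω : Om, (univ.filter (fun p : Pt => 1 ≤ f ω (yes p))).card =
      ∑ p : Pt, (univ.filter (fun ω : Om => 1 ≤ f ω (yes p))).card := by
    simp only [Finset.card_filter]
    exact Finset.sum_comm
  rw [hsw1, hsw2] at hsum
  have hTpos : 0 < Fintype.card Om := Fintype.card_pos
  have hQpos : 0 < Fintype.card (Equiv.Perm (Fin n)) := Fintype.card_pos
  have hPpos : 0 < Fintype.card Pt := Fintype.card_pos
  have hlow : 3 * Fintype.card Om * Fintype.card (Equiv.Perm (Fin n)) ≤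
      4 * ∑ σ : Equiv.Perm (Fin n), (univ.filter (fun ω : Om => 1 ≤ f ω (no σ))).card := by
    rw [Finset.mul_sum]
    calc 3 * Fintype.card Om * Fintype.card (Equiv.Perm (Fin n)) =
        ∑ _σ : Equiv.Perm (Fin n), 3 * Fintype.card Om := by
          rw [Finset.sum_const, Finset.card_univ, smul_eq_mul]
          ring
      _ ≤ _ := Finset.sum_le_sum fun σ _ => hno σ
  have hup : 4 * ∑ p : Pt, (univ.filter (fun ω : Om => 1 ≤ f ω (yes p))).card ≤
      Fintype.card Om * Fintype.card Pt := by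
    rw [Finset.mul_sum]
    calc ∑ p : Pt, 4 * (univ.filter (fun ω : Om => 1 ≤ f ω (yes p))).card ≤
        ∑ _p : Pt, Fintype.card Om := Finset.sum_le_sum fun p _ => by
          have h4 := hyes p
          have h5 := Finset.card_filter_add_card_filter_not (s := (univ : Finset Om))
            (p := fun ω => 1 ≤ f ω (yes p))
          rw [Finset.card_univ] at h5
          have h6 : (univ.filter fun ω : Om => ¬ 1 ≤ f ω (yes p)) =
              univ.filter fun ω => f ω (yes p) < 1 := by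
            ext ω
            simp
          rw [h6] at h5
          omega
      _ = Fintype.card Om * Fintype.card Pt := by
          rw [Finset.sum_const, Finset.card_univ, smul_eq_mul]
          ring
  set T := Fintype.card Om with hTT
  set Q := Fintype.card (Equiv.Perm (Fin n)) with hQ
  set P := Fintype.card Pt with hP
  set A1 := ∑ σ : Equiv.Perm (Fin n), (univ.filter (fun ω : Om => 1 ≤ f ω (no σ))).card
  set A2 := ∑ p : Pt, (univ.filter (fun ω : Om => 1 ≤ f ω (yes p))).card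
  have e1 : 3 * T * Q * P ≤ A1 * P * 4 := by
    calc 3 * T * Q * P ≤ 4 * A1 * P := Nat.mul_le_mul_right _ hlow
      _ = A1 * P * 4 := by ring
  have e2 : A2 * Q * 4 ≤ T * P * Q := by
    calc A2 * Q * 4 = 4 * A2 * Q := by ring
      _ ≤ T * P * Q := Nat.mul_le_mul_right _ hup
  have e3 : 3 * T * Q * P ≤ T * P * Q + T * (P * Q) := (e1.trans hsum).trans
    (Nat.add_le_add_right e2 _)
  have e4 : 0 < T * P * Q := by positivity
  nlinarith

open Classical in
/-- the main theorem -/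
theorem main : ∃ n₀ : ℕ, ∀ n : ℕ, n₀ ≤ n → ∀ D K : ℕ, 1 ≤ D → 3 * D * Real.log n ≤ K →
    ∀ (R : Type) [Fintype R] [Nonempty R] (C : R → RC (Rw n K × Bool)) (s : ℕ)
      (hT : ∀ ρ, (C ρ).T = ∅) (hs : ∀ ρ, (C ρ).S ≤ s)
      (h1 : ∀ z : Rw n K → Bool, Solv (mat n K) (top n K) z →
        (4 / 5 : ℝ) * (Fintype.card R * (D : ℝ) ^ Fintype.card (Rw n K)) ≤
        ({s : R × (Rw n K → Fin D) | (C s.1).acc (lit z (Flt s.2))}.ncard : ℝ))
      (h2 : ∀ z : Rw n K → Bool, ¬ Solv (mat n K) (top n K) z →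
        ({ρ : R | (C ρ).acc (lit z ∅)}.ncard : ℝ) ≤ 1 / 4 * Fintype.card R),
      (2 : ℝ) ^ ((n : ℝ) ^ (1 / 9 : ℝ)) ≤ 3 * s + 2 := by
  obtain ⟨n₀, hn₀⟩ := Filter.eventually_atTop.mp params
  refine ⟨n₀, fun n hn D K hD hK R _ _ C s hT hs h1 h2 => ?_⟩
  obtain ⟨w, lam, hw, hlam, hbig, hw4, hlog, hn1⟩ := hn₀ n hn
  have hDR : (1 : ℝ) ≤ D := by exact_mod_cast hD
  have hnR : (1 : ℝ) ≤ n := by exact_mod_cast hn1
  have hK0 : 0 < K := by
    have h3 : (0 : ℝ) < K := by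
      refine lt_of_lt_of_le ?_ hK
      have : (0 : ℝ) < Real.log n := by linarith
      positivity
    exact_mod_cast h3
  have _ : NeZero K := ⟨by omega⟩
  have _ : NeZero n := ⟨by omega⟩
  have hcard : (Fintype.card (Fin n × Fin n) : ℝ) = (n : ℝ) ^ 2 := by
    rw [Fintype.card_prod, Fintype.card_fin]
    push_cast
    ring
  have hbad : (Fintype.card (Fin n × Fin n) : ℝ) * (1 - 1 / (D : ℝ)) ^ Fintype.card (Fin K) ≤
      1 / 40 := by
    refine places_bad (by omega) (by rw [hcard]; positivity) ?_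
    rw [hcard, Real.log_pow, Fintype.card_fin]
    push_cast
    refine le_trans ?_ hK
    have : (2 : ℝ) * Real.log n + 4 ≤ 3 * Real.log n := by linarith
    calc (D : ℝ) * (2 * Real.log n + 4) ≤ D * (3 * Real.log n) :=
          mul_le_mul_of_nonneg_left this (by linarith)
      _ = 3 * D * Real.log n := by ring
  obtain ⟨Pt, i1, i2, W, hW, H⟩ := match_avg (n := n) w lam 2 hw (by norm_num) hlam hbig
  set B0 : Set (Set (Fin n × Fin n) → ℝ) :=
    {f | ∃ T : Finset (Fin n × Fin n), T.card ≤ 1 ∧ LeafOnR T f} with hB0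
  set no : Equiv.Perm (Fin n) → Set (Fin n × Fin n) := fun σ => {e | σ e.1 = e.2} with hno
  set yes : Pt → Set (Fin n × Fin n) := fun p => {e | Sum.inl e.1 ∈ W p ∨ Sum.inr e.2 ∈ W p}
    with hyes
  obtain ⟨l, hprog, hlen, f, hf, hdec⟩ := rc_fault (I := Set (Fin n × Fin n))
    (X := Fin n × Fin n) (G := Fin K) B0 (fun S => enc S)
    (fun x => by
      refine ⟨{x}, by simp, ?_⟩
      intro S S' hS
      unfold Pool.Agent.H560R2.bit enc
      by_cases h3 : x ∈ S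
      · have h4 := hS x (by simp) h3
        simp [h3, h4]
      · by_cases h4 : x ∈ S'
        · simp [h3, h4]
        · simp [h3, h4])
    (fun c => ⟨∅, by simp, fun _ _ _ => le_rfl⟩)
    (fun S => ∃ σ, S = no σ) (fun S => ∃ p, S = yes p)
    (by omega : 0 < D) (slot n K) (base n K) C hT hbad
    (fun S hS τ => by
      obtain ⟨σ, rfl⟩ := hS
      exact h1 _ (solv_perm _ σ τ (host_inst _ τ)))
    (fun S hS τ => by
      obtain ⟨p, rfl⟩ := hS
      refine h2 _ (not_solv_cover _ (W p) (hW p) _ ?_ (host_inst _ τ))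
      rintro e ⟨-, he⟩
      exact he)
  have hOne : Nonempty (R × (Fin n × Fin n → Fin K)) := ⟨(Classical.arbitrary R, fun _ => 0)⟩
  by_contra hcon
  push Not at hcon
  have hsize : ∀ ω, 8 * 2 * (l ω).length ≤ 2 ^ w := by
    intro ω
    have h3 : (l ω).length ≤ 3 * s + 2 := (hlen ω).trans (by have := hs ω.1; omega)
    have h4 : ((8 * 2 * (l ω).length : ℕ) : ℝ) ≤ ((2 ^ w : ℕ) : ℝ) := by
      have h5 : ((l ω).length : ℝ) ≤ 3 * s + 2 := by exact_mod_cast h3
      have h6 : (2 : ℝ) ^ ((n : ℝ) ^ (1 / 9 : ℝ)) * 16 ≤ 2 ^ w := by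
        calc (2 : ℝ) ^ ((n : ℝ) ^ (1 / 9 : ℝ)) * 16 = 2 ^ ((n : ℝ) ^ (1 / 9 : ℝ) + 4) := by
              rw [Real.rpow_add (by norm_num)]
              norm_num
          _ ≤ (2 : ℝ) ^ ((w : ℕ) : ℝ) := Real.rpow_le_rpow_of_exponent_le (by norm_num) hw4
          _ = 2 ^ w := Real.rpow_natCast _ _
      push_cast
      linarith
    exact_mod_cast h4
  refine average no yes f (fun ω => ?_) (fun σ => ?_) (fun p => ?_)
  · exact H B0 (fun b hb => hb) (l ω) (rprog_of_fprog (hprog ω) rfl) (f ω)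
      (Or.inr (hf ω)) 1 (hsize ω)
  · have h3 := (hdec (no σ)).1 ⟨σ, rfl⟩
    convert h3
  · have h3 := (hdec (yes p)).2 ⟨p, rfl⟩
    convert h3

end Pool.Agent.Q329.UL
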